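import Pool.Agent.H217.CF.Spec

/-! S_final: from the number of colours to the maximum degree. -/

set_option autoImplicit false

namespace Pool.Agent.H278.CF

open Pool.Agent.H217.CF Filter

/-- disjoint union of `G` and a star with `Δ` leaves -/
def SG {N : ℕ} (G : SimpleGraph (Fin N)) (Δ : ℕ) : SimpleGraph (Fin N ⊕ Option (Fin Δ)) where
  Adj a b := (∃ u v, a = Sum.inl u ∧ b = Sum.inl v ∧ G.Adj u v) ∨
    (∃ i : Fin Δ, a = Sum.inr none ∧ b = Sum.inr (some i)) ∨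
    (∃ i : Fin Δ, a = Sum.inr (some i) ∧ b = Sum.inr none)
  symm := by
    refine ⟨fun a b h => ?_⟩
    rcases h with ⟨u, v, h1, h2, h3⟩ | ⟨i, h1, h2⟩ | ⟨i, h1, h2⟩
    · exact Or.inl ⟨v, u, h2, h1, h3.symm⟩
    · exact Or.inr (Or.inr ⟨i, h2, h1⟩)
    · exact Or.inr (Or.inl ⟨i, h2, h1⟩)
  loopless := by
    refine ⟨fun a h => ?_⟩
    rcases h with ⟨u, v, h1, h2, h3⟩ | ⟨i, h1, h2⟩ | ⟨i, h1, h2⟩
    · rw [h1] at h2
      exact h3.ne (Sum.inl.inj h2)
    · rw [h1] at h2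
      exact absurd (Sum.inr.inj h2) (by simp)
    · rw [h1] at h2
      exact absurd (Sum.inr.inj h2) (by simp)

variable {N : ℕ} {G : SimpleGraph (Fin N)} {Δ : ℕ}

theorem SG_inl {u v : Fin N} : (SG G Δ).Adj (Sum.inl u) (Sum.inl v) ↔ G.Adj u v := by
  constructor
  · rintro (⟨u', v', h1, h2, h3⟩ | ⟨i, h1, h2⟩ | ⟨i, h1, h2⟩)
    · rw [Sum.inl.inj h1, Sum.inl.inj h2]; exact h3
    · exact absurd h1 (by simp)
    · exact absurd h1 (by simp)
  · intro h
    exact Or.inl ⟨u, v, rfl, rfl, h⟩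

theorem nb_inl (v : Fin N) : (SG G Δ).neighborSet (Sum.inl v) = Sum.inl '' G.neighborSet v := by
  ext a
  constructor
  · rintro (⟨u', v', h1, h2, h3⟩ | ⟨i, h1, h2⟩ | ⟨i, h1, h2⟩)
    · rw [Sum.inl.inj h1]; exact ⟨v', h3, h2.symm⟩
    · exact absurd h1 (by simp)
    · exact absurd h1 (by simp)
  · rintro ⟨u, hu, rfl⟩
    exact SG_inl.2 hu

theorem nb_none : (SG G Δ).neighborSet (Sum.inr none) =
    Set.range (fun i : Fin Δ => (Sum.inr (some i) : Fin N ⊕ Option (Fin Δ))) := by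
  ext a
  constructor
  · rintro (⟨u', v', h1, h2, h3⟩ | ⟨i, h1, h2⟩ | ⟨i, h1, h2⟩)
    · exact absurd h1 (by simp)
    · exact ⟨i, h2.symm⟩
    · exact absurd (Sum.inr.inj h1) (by simp)
  · rintro ⟨i, rfl⟩
    exact Or.inr (Or.inl ⟨i, rfl, rfl⟩)

theorem nb_some (i : Fin Δ) : (SG G Δ).neighborSet (Sum.inr (some i)) ⊆ {Sum.inr none} := by
  rintro a (⟨u', v', h1, h2, h3⟩ | ⟨i, h1, h2⟩ | ⟨i, h1, h2⟩)
  · exact absurd h1 (by simp)
  · exact absurd (Sum.inr.inj h1) (by simp)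
  · exact h2

theorem deg_eq {V : Type} [Fintype V] (G : SimpleGraph V) [DecidableRel G.Adj] (v : V) :
    G.degree v = (G.neighborSet v).ncard := by
  rw [Set.ncard_eq_toFinset_card', SimpleGraph.degree, SimpleGraph.neighborFinset]

theorem SG_maxDegree [DecidableRel (SG G Δ).Adj] (hΔ : 1 ≤ Δ)
    (h : ∀ v : Fin N, (G.neighborSet v).ncard ≤ Δ) : (SG G Δ).maxDegree = Δ := by
  apply le_antisymm
  · refine SimpleGraph.maxDegree_le_of_forall_degree_le _ _ fun a => ?_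
    rw [deg_eq]
    rcases a with v | _ | i
    · rw [nb_inl, Set.ncard_image_of_injective _ Sum.inl_injective]
      exact h v
    · rw [nb_none, ← Set.image_univ, Set.ncard_image_of_injective _
        (fun i j hij => Option.some_injective _ (Sum.inr_injective hij)), Set.ncard_univ]
      simp
    · refine (Set.ncard_le_ncard (nb_some i) (Set.finite_singleton _)).trans ?_
      rw [Set.ncard_singleton]
      exact hΔ
  · refine le_trans (le_of_eq ?_) (SimpleGraph.degree_le_maxDegree (SG G Δ) (Sum.inr none))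
    rw [deg_eq, nb_none, ← Set.image_univ, Set.ncard_image_of_injective _
        (fun i j hij => Option.some_injective _ (Sum.inr_injective hij)), Set.ncard_univ]
    simp

theorem SG_colorable {r : ℕ} (h : (SG G Δ).Colorable r) : G.Colorable r := by
  obtain ⟨col⟩ := h
  exact ⟨SimpleGraph.Coloring.mk (fun v => col (Sum.inl v))
    (fun {u v} huv => col.valid (SG_inl.2 huv))⟩

theorem SG_hom {q n : ℕ} (hq : 2 ≤ q) (v₀ : Fin N) (F : SimpleGraph (Fin n))
    (f : Fin n → Fin N ⊕ Option (Fin Δ)) (hf : ∀ i j, F.Adj i j → (SG G Δ).Adj (f i) (f j))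
    (hG : ∀ F' : SimpleGraph (Fin n), Nonempty (F' →g G) → F'.Colorable q) : F.Colorable q := by
  let g : Fin n → Fin N := fun i => Sum.elim id (fun _ => v₀) (f i)
  let F' : SimpleGraph (Fin n) :=
    { Adj := fun i j => F.Adj i j ∧ (∃ u, f i = Sum.inl u) ∧ ∃ v, f j = Sum.inl v
      symm := ⟨fun i j h => ⟨h.1.symm, h.2.2, h.2.1⟩⟩
      loopless := ⟨fun i h => h.1.ne rfl⟩ }
  have hom : Nonempty (F' →g G) := by
    refine ⟨⟨g, ?_⟩⟩
    rintro i j ⟨h1, ⟨u, hu⟩, ⟨v, hv⟩⟩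
    have h2 := hf i j h1
    rw [hu, hv, SG_inl] at h2
    show G.Adj (Sum.elim id (fun _ => v₀) (f i)) (Sum.elim id (fun _ => v₀) (f j))
    rw [hu, hv]
    exact h2
  obtain ⟨col⟩ := hG F' hom
  let c : Fin n → Fin q := fun i => match f i with
    | Sum.inl _ => col i
    | Sum.inr none => ⟨0, by omega⟩
    | Sum.inr (some _) => ⟨1, by omega⟩
  have c1 : ∀ i u, f i = Sum.inl u → c i = col i := by
    intro i u hu
    show (match f i with
    | Sum.inl _ => col i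
    | Sum.inr none => ⟨0, by omega⟩
    | Sum.inr (some _) => ⟨1, by omega⟩) = col i
    rw [hu]
  have c2 : ∀ i, f i = Sum.inr none → c i = ⟨0, by omega⟩ := by
    intro i hu
    show (match f i with
    | Sum.inl _ => col i
    | Sum.inr none => ⟨0, by omega⟩
    | Sum.inr (some _) => ⟨1, by omega⟩) = _
    rw [hu]
  have c3 : ∀ i l, f i = Sum.inr (some l) → c i = ⟨1, by omega⟩ := by
    intro i l hu
    show (match f i with
    | Sum.inl _ => col i
    | Sum.inr none => ⟨0, by omega⟩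
    | Sum.inr (some _) => ⟨1, by omega⟩) = _
    rw [hu]
  refine ⟨SimpleGraph.Coloring.mk c fun {i j} hij => ?_⟩
  rcases hf i j hij with ⟨u, v, h1, h2, -⟩ | ⟨l, h1, h2⟩ | ⟨l, h1, h2⟩
  · rw [c1 i u h1, c1 j v h2]
    exact col.valid ⟨hij, ⟨u, h1⟩, ⟨v, h2⟩⟩
  · rw [c2 i h1, c3 j l h2]
    intro h
    have := congrArg Fin.val h
    simp at this
  · rw [c3 i l h1, c2 j h2]
    intro h
    have := congrArg Fin.val h
    simp at this

theorem s_final : S_final := by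
  intro q hq c c' hc hc' hcc n F hF hgood
  obtain ⟨k₀, hk₀⟩ := hgood
  have hε : 0 < c' / (k₀ + 1) := by positivity
  have e1 : ∀ᶠ Δ : ℕ in atTop, ‖Real.log (Δ : ℝ)‖ ≤ c' / (k₀ + 1) * ‖(id (Δ : ℝ) : ℝ)‖ :=
    tendsto_natCast_atTop_atTop.eventually (Real.isLittleO_log_id_atTop.def hε)
  have e2 : ∀ᶠ Δ : ℕ in atTop, c' ≤ Real.log (Δ : ℝ) :=
    tendsto_natCast_atTop_atTop.eventually (Real.tendsto_log_atTop.eventually_ge_atTop c')
  obtain ⟨Δ₀, hΔ₀⟩ := ((e1.and e2).and (eventually_ge_atTop 1)).exists_forall_of_atTop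
  refine ⟨Δ₀, fun Δ hΔ => ?_⟩
  obtain ⟨⟨h1, h2⟩, h3⟩ := hΔ₀ Δ hΔ
  have hlog : 0 < Real.log (Δ : ℝ) := hc'.trans_le h2
  have hΔpos : (0 : ℝ) < Δ := by exact_mod_cast h3
  rw [Real.norm_of_nonneg hlog.le, id, Real.norm_of_nonneg hΔpos.le] at h1
  set X : ℝ := c' * (Δ / Real.log Δ) with hX
  have hX0 : 0 ≤ X := by positivity
  have hXk : (k₀ : ℝ) + 1 ≤ X := by
    rw [hX, ← mul_div_assoc, le_div_iff₀ hlog]
    have : ((k₀ : ℝ) + 1) * (c' / (k₀ + 1) * Δ) = c' * Δ := by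
      field_simp
    rw [← this]
    exact mul_le_mul_of_nonneg_left h1 (by positivity)
  have hXΔ : X ≤ Δ := by
    rw [hX, ← mul_div_assoc, div_le_iff₀ hlog, mul_comm]
    exact mul_le_mul_of_nonneg_left h2 hΔpos.le
  set k : ℕ := ⌊X⌋₊ with hk
  have hkX : (k : ℝ) ≤ X := Nat.floor_le hX0
  have hkk : k₀ + 1 ≤ k := Nat.le_floor (by exact_mod_cast hXk)
  have hk1 : (1 : ℝ) ≤ k := by exact_mod_cast (by omega : 1 ≤ k)
  obtain ⟨N, G, hdeg, hcol, hloc⟩ := hk₀ k (by omega)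
  have hN : Nonempty (Fin N) := by
    by_contra hne
    rw [not_nonempty_iff] at hne
    exact hcol ⟨SimpleGraph.Coloring.mk (fun v => isEmptyElim v) (fun {u} => isEmptyElim u)⟩
  obtain ⟨v₀⟩ := hN
  have hdeg' : ∀ v : Fin N, (G.neighborSet v).ncard ≤ Δ := by
    intro v
    have h4 := hdeg v
    rw [← Set.ncard_eq_toFinset_card] at h4
    have h5 : c * (k * Real.log k) ≤ Δ := by
      have h6 : Real.log k ≤ Real.log Δ := Real.log_le_log (by linarith) (hkX.trans hXΔ)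
      have h7 : 0 ≤ Real.log k := Real.log_nonneg hk1
      have h8 : (k : ℝ) * Real.log k ≤ X * Real.log Δ :=
        mul_le_mul hkX h6 h7 hX0
      have h9 : X * Real.log Δ = c' * Δ := by
        rw [hX]; field_simp
      calc c * (k * Real.log k) ≤ c * (c' * Δ) := by
            rw [← h9]; exact mul_le_mul_of_nonneg_left h8 hc.le
        _ = (c * c') * Δ := by ring
        _ ≤ 1 * Δ := mul_le_mul_of_nonneg_right hcc hΔpos.le
        _ = Δ := one_mul _
    exact_mod_cast h4.trans h5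
  classical
  refine ⟨Fin N ⊕ Option (Fin Δ), inferInstance, SG G Δ, inferInstance, ?_, ?_, ?_⟩
  · rintro ⟨f⟩
    exact hF (SG_hom hq v₀ F f (fun i j hij => f.toHom.map_adj hij) (hloc n le_rfl))
  · exact SG_maxDegree h3 hdeg'
  · intro r hr
    have h4 : k < r := by
      by_contra hlt
      exact hcol ((SG_colorable hr).mono (not_lt.1 hlt))
    have h5 : X < k + 1 := Nat.lt_floor_add_one X
    have h6 : (k : ℝ) + 1 ≤ r := by exact_mod_cast h4
    exact h5.trans_le h6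

end Pool.Agent.H278.CF
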